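import Pool.Agent.H39.Newt2.Stmts

/-!
# NEWTON2, LEX: existence of lattice coordinates with a complement
-/

set_option autoImplicit false

namespace Pool.Newt2

open Pool.Newt

/-- the inclusion of the integral points -/
noncomputable def LEX_inc (σ : Type) : (σ → ℤ) →ₗ[ℤ] (σ → ℚ) where
  toFun x := fun l => (x l : ℚ)
  map_add' x y := by funext l; simp
  map_smul' n x := by funext l; simp

lemma LEX_inc_inj (σ : Type) : Function.Injective (LEX_inc σ) := by
  intro x y h
  funext l
  have := congrFun h l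
  simpa [LEX_inc] using this

/-- the saturated lattice of the integral points of `V` -/
noncomputable def LEX_N {σ : Type} (V : Submodule ℚ (σ → ℚ)) : Submodule ℤ (σ → ℤ) :=
  (V.restrictScalars ℤ).comap (LEX_inc σ)

lemma LEX_mem {σ : Type} (V : Submodule ℚ (σ → ℚ)) (x : σ → ℤ) :
    x ∈ LEX_N V ↔ LEX_inc σ x ∈ V := by
  simp [LEX_N]

lemma LEX_tf {σ : Type} (V : Submodule ℚ (σ → ℚ)) :
    Module.IsTorsionFree ℤ ((σ → ℤ) ⧸ LEX_N V) := by
  rw [Module.isTorsionFree_iff_smul_eq_zero]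
  intro n x h
  induction x using Submodule.Quotient.induction_on with
  | H x =>
    rw [← Submodule.Quotient.mk_smul, Submodule.Quotient.mk_eq_zero, LEX_mem] at h
    by_cases hn : n = 0
    · left; exact hn
    · right
      rw [Submodule.Quotient.mk_eq_zero, LEX_mem]
      have h1 : LEX_inc σ x = ((n : ℚ)⁻¹) • LEX_inc σ (n • x) := by
        funext l
        simp [LEX_inc]
        field_simp
      rw [h1]
      exact V.smul_mem _ h

lemma LEX_rank {σ : Type} [Finite σ] (V : Submodule ℚ (σ → ℚ)) (S : Set (σ → ℤ))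
    (hV : V = Submodule.span ℚ (LEX_inc σ '' S)) (r : ℕ)
    (b : Module.Basis (Fin r) ℤ (LEX_N V)) : r = Module.finrank ℚ V := by
  set v : Fin r → (σ → ℚ) := fun i => LEX_inc σ (b i : σ → ℤ) with hv
  have h1 : LinearIndependent ℤ v := by
    have h2 : LinearIndependent ℤ (fun i => (b i : σ → ℤ)) :=
      b.linearIndependent.map' (Submodule.subtype _) (Submodule.ker_subtype _)
    exact h2.map' (LEX_inc σ) (LinearMap.ker_eq_bot.2 (LEX_inc_inj σ))
  have h3 : LinearIndependent ℚ v := (LinearIndependent.iff_fractionRing ℤ ℚ).1 h1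
  have h4 : Submodule.span ℚ (Set.range v) = V := by
    apply le_antisymm
    · rw [Submodule.span_le]
      rintro _ ⟨i, rfl⟩
      exact (LEX_mem V _).1 (b i).2
    · rw [hV, Submodule.span_le]
      rintro _ ⟨x, hx, rfl⟩
      have hxN : x ∈ LEX_N V := by
        rw [LEX_mem, hV]
        exact Submodule.subset_span ⟨x, hx, rfl⟩
      have h5 : x = ∑ i, (b.repr ⟨x, hxN⟩ i) • (b i : σ → ℤ) := by
        have h6 := congrArg (Submodule.subtype (LEX_N V)) (b.sum_repr ⟨x, hxN⟩)
        simp only [map_sum, map_smul, Submodule.subtype_apply] at h6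
        exact h6.symm
      rw [h5, map_sum]
      apply Submodule.sum_mem
      intro i _
      rw [map_smul]
      have : ((b.repr ⟨x, hxN⟩ i) • LEX_inc σ (b i : σ → ℤ)) =
          ((b.repr ⟨x, hxN⟩ i : ℤ) : ℚ) • v i := by
        rw [hv, Int.cast_smul_eq_zsmul]
      rw [this]
      exact Submodule.smul_mem _ _ (Submodule.subset_span ⟨i, rfl⟩)
  rw [← h4, finrank_span_eq_card h3, Fintype.card_fin]

theorem lex : SLex := by
  classical
  intro σ I _ _ a τ
  set V : Submodule ℚ (σ → ℚ) :=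
    Submodule.span ℚ (Set.range fun (i : τ) (l : σ) => (a i l : ℚ)) with hV
  set S : Set (σ → ℤ) := Set.range fun (i : τ) (l : σ) => (a i l : ℤ) with hS
  have hVS : V = Submodule.span ℚ (LEX_inc σ '' S) := by
    rw [hV, hS, ← Set.range_comp]
    congr 1
  have := LEX_tf V
  have : Module.Free ℤ ((σ → ℤ) ⧸ LEX_N V) := Module.free_of_finite_type_torsion_free'
  obtain ⟨f, hf⟩ := Module.projective_lifting_property (LEX_N V).mkQ LinearMap.id
    (Submodule.mkQ_surjective _)
  have hf' : ∀ q, (LEX_N V).mkQ (f q) = q := fun q => LinearMap.congr_fun hf q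
  set g : (LEX_N V × ((σ → ℤ) ⧸ LEX_N V)) →ₗ[ℤ] (σ → ℤ) :=
    LinearMap.coprod (LEX_N V).subtype f with hg
  have hgb : Function.Bijective g := by
    constructor
    · rw [injective_iff_map_eq_zero]
      rintro ⟨n, q⟩ h
      rw [hg, LinearMap.coprod_apply] at h
      have h1 : q = 0 := by
        have h2 := congrArg (LEX_N V).mkQ h
        rw [map_add, hf', map_zero] at h2
        have h3 : (LEX_N V).mkQ ((LEX_N V).subtype n) = 0 := by simp
        rwa [h3, zero_add] at h2
      rw [h1, map_zero, add_zero] at h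
      have h4 : n = 0 := Subtype.ext h
      rw [h1, h4]
      rfl
    · intro x
      have h1 : x - f ((LEX_N V).mkQ x) ∈ LEX_N V := by
        rw [← Submodule.Quotient.mk_eq_zero, ← Submodule.mkQ_apply, map_sub, hf', sub_self]
      refine ⟨(⟨_, h1⟩, (LEX_N V).mkQ x), ?_⟩
      rw [hg, LinearMap.coprod_apply]
      simp
  set Φ := LinearEquiv.ofBijective g hgb with hΦ
  set bN := Module.finBasis ℤ (LEX_N V)
  set bQ := Module.finBasis ℤ ((σ → ℤ) ⧸ LEX_N V)
  have hr := LEX_rank V S hVS _ bN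
  set r := Module.finrank ℤ (LEX_N V) with hrr
  set s := Module.finrank ℤ ((σ → ℤ) ⧸ LEX_N V) with hss
  set E1 : (Fin r ⊕ Fin s → ℤ) ≃ₗ[ℤ] (σ → ℤ) :=
    (LinearEquiv.sumArrowLequivProdArrow (Fin r) (Fin s) ℤ ℤ).trans
      ((LinearEquiv.prodCongr bN.equivFun.symm bQ.equivFun.symm).trans Φ) with hE1
  have hmem : ∀ i ∈ τ, (fun l => (a i l : ℤ)) ∈ LEX_N V := by
    intro i hi
    rw [LEX_mem, hVS]
    exact Submodule.subset_span ⟨_, ⟨⟨i, hi⟩, rfl⟩, rfl⟩
  refine ⟨r, s, E1.toAddEquiv,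
    fun i => if hi : i ∈ τ then bN.equivFun ⟨_, hmem i hi⟩ else 0, ?_, ?_, ?_⟩
  · rw [hr]; rfl
  · have h1 := LinearEquiv.finrank_eq E1
    simpa using h1
  · intro i hi
    show E1 (Sum.elim (if hi : i ∈ τ then bN.equivFun ⟨_, hmem i hi⟩ else 0) 0) = _
    rw [dif_pos hi]
    rw [hE1, LinearEquiv.trans_apply, LinearEquiv.trans_apply]
    have h1 : (LinearEquiv.sumArrowLequivProdArrow (Fin r) (Fin s) ℤ ℤ)
        (Sum.elim (bN.equivFun ⟨_, hmem i hi⟩) 0) = (bN.equivFun ⟨_, hmem i hi⟩, 0) := by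
      apply Prod.ext
      · funext j; simp
      · funext j; simp
    rw [h1]
    have h2 : (LinearEquiv.prodCongr bN.equivFun.symm bQ.equivFun.symm)
        (bN.equivFun ⟨_, hmem i hi⟩, (0 : Fin s → ℤ)) =
        ((⟨_, hmem i hi⟩ : LEX_N V), (0 : (σ → ℤ) ⧸ LEX_N V)) := by
      apply Prod.ext
      · simp
      · simp
    rw [h2, hΦ, LinearEquiv.ofBijective_apply, hg, LinearMap.coprod_apply]
    simp

end Pool.Newt2
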